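import Pool.Agent.Y248.FE.Stm
import Pool.Agent.Y86.FC.An1
import Pool.Agent.Y71.FB.GlobA

set_option autoImplicit false

/-! # Project FE: the trivial gain -/

namespace Pool.Agent.Y421.FE

open MeasureTheory Set Metric Complex Filter
open scoped ENNReal RealInnerProductSpace Topology FourierTransform
open Pool.Agent.H789R2.FR (E sg T)
open Pool.Agent.Y248.BA (Jw Jw_cont Jw_int Jw_pos four_eq)
open Pool.Agent.Y248.FB Pool.Agent.Y248.FC Pool.Agent.Y248.FE

/-- the Gaussian weight -/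
noncomputable def gw (r : ℝ) : ℝ := Real.exp (2 * Real.pi) * Real.exp (-Real.pi * r ^ 2)

theorem gw_pos (r : ℝ) : 0 < gw r := by unfold gw; positivity

theorem gw_cont : Continuous gw := by unfold gw; fun_prop

theorem gw_four {n : ℕ} (x : E n) : 𝓕 (fun y : E n => ((gw ‖y‖ : ℝ) : ℂ)) x = ((gw ‖x‖ : ℝ) : ℂ) := by
  have h1 := fourier_gaussian_innerProductSpace (V := E n) (b := (Real.pi : ℂ))
    (by rw [Complex.ofReal_re]; exact Real.pi_pos) x
  have hpi : (Real.pi : ℂ) ≠ 0 := by exact_mod_cast Real.pi_ne_zero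
  rw [div_self hpi, Complex.one_cpow, one_mul] at h1
  rw [four_eq] at h1 ⊢
  have e1 : ∀ y : E n, Complex.exp (((-2 * Real.pi * ⟪y, x⟫ : ℝ) : ℂ) * I) * ((gw ‖y‖ : ℝ) : ℂ) =
      ((Real.exp (2 * Real.pi) : ℝ) : ℂ) * (Complex.exp (((-2 * Real.pi * ⟪y, x⟫ : ℝ) : ℂ) * I) *
        cexp (-(Real.pi : ℂ) * (‖y‖ : ℂ) ^ 2)) := by
    intro y
    unfold gw
    push_cast
    ring
  simp only [e1]
  rw [integral_const_mul, h1]
  unfold gw
  push_cast
  congr 2
  field_simp

theorem gw_le (n : ℕ) (r : ℝ) (hr : 0 ≤ r) :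
    gw r ≤ (Real.exp (2 * Real.pi) * ((n + 1).factorial * Real.exp 2)) *
      (1 + r) ^ (-((n : ℝ) + 1)) := by
  unfold gw
  rw [mul_assoc]
  refine mul_le_mul_of_nonneg_left ?_ (Real.exp_pos _).le
  have h1 : (1 + r) ^ (n + 1) / ((n + 1).factorial : ℝ) ≤ Real.exp (1 + r) :=
    Real.pow_div_factorial_le_exp _ (by linarith) _
  have h2 : Real.exp (1 + r) ≤ Real.exp 2 * Real.exp (Real.pi * r ^ 2) := by
    rw [← Real.exp_add]
    apply Real.exp_le_exp.2
    have := Real.pi_gt_three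
    nlinarith [sq_nonneg (r - 1), sq_nonneg r]
  have hf : (0 : ℝ) < ((n + 1).factorial : ℝ) := by exact_mod_cast Nat.factorial_pos _
  have h3 : (1 + r) ^ (n + 1) ≤ ((n + 1).factorial : ℝ) * (Real.exp 2 * Real.exp (Real.pi * r ^ 2)) := by
    rw [div_le_iff₀ hf] at h1
    nlinarith
  have hp : (0 : ℝ) < (1 + r) ^ (n + 1) := by positivity
  have e : (1 + r) ^ (-((n : ℝ) + 1)) = ((1 + r) ^ (n + 1))⁻¹ := by
    rw [Real.rpow_neg (by positivity)]
    congr 1
    exact_mod_cast Real.rpow_natCast (1 + r) (n + 1)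
  rw [e, ← div_eq_mul_inv, le_div_iff₀ hp, neg_mul, Real.exp_neg, inv_mul_le_iff₀ (Real.exp_pos _)]
  calc (1 + r) ^ (n + 1) ≤ ((n + 1).factorial : ℝ) * (Real.exp 2 * Real.exp (Real.pi * r ^ 2)) := h3
    _ = _ := by ring

theorem t_g0 (n : ℕ) : S_G0 n := by
  intro D hD
  set C : ℝ := Real.exp (2 * Real.pi) * ((n + 1).factorial * Real.exp 2) with hC
  have hC0 : 0 < C := by
    have : (0 : ℝ) < ((n + 1).factorial : ℝ) := by exact_mod_cast Nat.factorial_pos _
    positivity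
  refine ⟨C * (D * 2 ^ (n + 1)), by positivity, fun μ hμ ρ hρ g hg => ?_⟩
  obtain ⟨hm, ⟨M, hM⟩, a, ha⟩ := hg
  set ν : Measure (E n) := μ.restrict (closedBall 0 a) with hν
  have hfin : IsFiniteMeasure ν := by
    refine ⟨?_⟩
    rw [hν, Measure.restrict_apply_univ]
    refine (measure_mono (closedBall_subset_closedBall (le_max_left a 1))).trans_lt ?_
    exact (hμ 0 _ (le_max_right _ _)).trans_lt ENNReal.ofReal_lt_top
  have hmass : ∀ t : E n, ∫⁻ s, ENNReal.ofReal (Jw (s - t)) ∂μ ≤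
      ENNReal.ofReal (D * 2 ^ (n + 1)) := by
    intro t
    have h1 := Pool.Agent.Y71.FB.Jw_mass (n := n) (α := (n : ℝ)) le_rfl (Dim.of_smul hD hμ) t
    rw [lintegral_smul_measure, smul_eq_mul] at h1
    have hD' : ENNReal.ofReal D * ENNReal.ofReal D⁻¹ = 1 := by
      rw [← ENNReal.ofReal_mul hD.le, mul_inv_cancel₀ hD.ne', ENNReal.ofReal_one]
    calc ∫⁻ s, ENNReal.ofReal (Jw (s - t)) ∂μ
        = ENNReal.ofReal D * (ENNReal.ofReal D⁻¹ * ∫⁻ s, ENNReal.ofReal (Jw (s - t)) ∂μ) := by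
          rw [← mul_assoc, hD', one_mul]
      _ ≤ ENNReal.ofReal D * ENNReal.ofReal (2 ^ (n + 1)) := mul_le_mul' le_rfl h1
      _ = _ := by rw [← ENNReal.ofReal_mul hD.le]
  set S : Set (E n) := {ξ : E n | |‖ξ‖ ^ 2 - 1| ≤ 1 / ρ} with hS
  have hSm : MeasurableSet S :=
    measurableSet_le (((measurable_norm.pow_const 2).sub_const 1).abs) measurable_const
  have hgwm : Measurable fun ξ : E n => gw ‖ξ‖ := gw_cont.measurable.comp measurable_norm
  have hgi : Integrable fun ξ : E n => gw ‖ξ‖ := by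
    refine (Jw_int.const_mul C).mono' hgwm.aestronglyMeasurable (Eventually.of_forall fun ξ => ?_)
    rw [Real.norm_of_nonneg (gw_pos _).le]
    exact gw_le n ‖ξ‖ (norm_nonneg _)
  have h1 := Pool.Agent.Y86.FC.principle ν g hm M hM (fun ξ => gw ‖ξ‖) hgwm hgi
    (fun ξ => (gw_pos _).le) S (fun ξ hξ => by
      have h2 : |‖ξ‖ ^ 2 - 1| ≤ 1 / ρ := hξ
      have h3 : 1 / ρ ≤ 1 := by
        rw [div_le_one (by linarith)]
        exact hρ
      have h4 : ‖ξ‖ ^ 2 ≤ 2 := by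
        have := (abs_le.1 h2).2
        linarith
      simp only [gw]
      rw [← Real.exp_add]
      apply Real.one_le_exp
      nlinarith [Real.pi_pos]) hSm gw gw_cont.measurable (fun x => by
      rw [gw_four, Complex.norm_real, Real.norm_of_nonneg (gw_pos _).le])
    (ENNReal.ofReal (C * (D * 2 ^ (n + 1)))) (fun t => by
      calc ∫⁻ s, ENNReal.ofReal (gw ‖s - t‖) ∂ν ≤ ∫⁻ s, ENNReal.ofReal (gw ‖s - t‖) ∂μ :=
            lintegral_mono' Measure.restrict_le_self le_rfl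
        _ ≤ ∫⁻ s, ENNReal.ofReal C * ENNReal.ofReal (Jw (s - t)) ∂μ := by
            refine lintegral_mono fun s => ?_
            rw [← ENNReal.ofReal_mul hC0.le]
            exact ENNReal.ofReal_le_ofReal (gw_le n _ (norm_nonneg _))
        _ = ENNReal.ofReal C * ∫⁻ s, ENNReal.ofReal (Jw (s - t)) ∂μ :=
            lintegral_const_mul' _ _ ENNReal.ofReal_ne_top
        _ ≤ ENNReal.ofReal C * ENNReal.ofReal (D * 2 ^ (n + 1)) := mul_le_mul' le_rfl (hmass t)
        _ = _ := by rw [← ENNReal.ofReal_mul hC0.le])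
  have h2 : ∀ ξ, Fm g μ ξ = Fm g ν ξ := by
    intro ξ
    unfold Fm
    rw [hν]
    exact (setIntegral_eq_integral_of_forall_compl_eq_zero fun x hx => by
      rw [ha x hx, zero_mul]).symm
  have h3 : ρ ^ (-(0 : ℝ)) = 1 := by rw [neg_zero, Real.rpow_zero]
  rw [h3, mul_one]
  simp only [h2]
  refine h1.trans (mul_le_mul' le_rfl ?_)
  exact lintegral_mono' Measure.restrict_le_self le_rfl

end Pool.Agent.Y421.FE
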