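import Pool.Agent.Y248.FE.Stm
import Pool.Agent.Y86.FC.An1
import Pool.Agent.Y624.FB.HS

set_option autoImplicit false

/-! # Project FE: the mean of a measure as a sum of pieces -/

namespace Pool.Agent.Y421.FE

open MeasureTheory Set Metric Complex Filter
open scoped ENNReal RealInnerProductSpace Topology FourierTransform
open Pool.Agent.H789R2.FR (E sg T)
open Pool.Agent.H438R2.RZ (Bump)
open Pool.Agent.H438R2.RZ.R7aux
open Pool.Agent.Y248.BA
open Pool.Agent.Y248.FB Pool.Agent.Y248.FC Pool.Agent.Y248.FE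
open Pool.Agent.Y624.FB (mu_neg ml_sum mu_sq)
open Pool.Agent.Y86.FC (ff ff_meas norm_ff)

theorem tm_eq {n : ℕ} {ψ : ℝ → ℝ} (hψ : Bump ψ) {A : ℝ} (hA : 0 < A) (ν : Measure (E n))
    [IsFiniteMeasure ν] {f : E n → ℂ} (hf : Measurable f) {M : ℝ} (hM : ∀ x, ‖f x‖ ≤ M) (x : E n) :
    Tm (mu ψ A 1) f ν x = ∫ ξ : E n, mu ψ A 1 ξ * Fm f ν (-ξ) *
      cexp (((2 * Real.pi * ⟪x, ξ⟫ : ℝ) : ℂ) * I) := by
  have hq : Integrable (mu (n := n) ψ A 1) := mu_int hψ hA one_pos one_le_two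
  have hfi : Integrable f ν := by
    refine Integrable.of_bound hf.aestronglyMeasurable M (Eventually.of_forall hM)
  have hprod : Integrable (Function.uncurry fun (y ξ : E n) =>
      cexp (((-2 * Real.pi * ⟪ξ, x - y⟫ : ℝ) : ℂ) * I) * mu ψ A 1 ξ * f y)
      (ν.prod (volume : Measure (E n))) := by
    have h1 : Integrable (fun p : E n × E n => f p.1 * mu ψ A 1 p.2) (ν.prod volume) :=
      hfi.mul_prod hq
    refine h1.norm.mono' ?_ (Eventually.of_forall fun p => ?_)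
    · have hc : Continuous fun p : E n × E n =>
          cexp (((-2 * Real.pi * ⟪p.2, x - p.1⟫ : ℝ) : ℂ) * I) := by fun_prop
      exact (((hc.measurable.mul ((mu_cont hψ A 1).measurable.comp measurable_snd)).mul
        (hf.comp measurable_fst))).aestronglyMeasurable
    · show ‖cexp (((-2 * Real.pi * ⟪p.2, x - p.1⟫ : ℝ) : ℂ) * I) * mu ψ A 1 p.2 * f p.1‖ ≤
        ‖f p.1 * mu ψ A 1 p.2‖
      rw [norm_mul, norm_mul, Complex.norm_exp_ofReal_mul_I, one_mul, norm_mul, mul_comm]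
  have h1 : Tm (mu ψ A 1) f ν x = ∫ y : E n, (∫ ξ : E n,
      cexp (((-2 * Real.pi * ⟪ξ, x - y⟫ : ℝ) : ℂ) * I) * mu ψ A 1 ξ * f y) ∂ν := by
    unfold Tm
    refine integral_congr_ae (Eventually.of_forall fun y => ?_)
    simp only
    rw [four_eq, ← integral_mul_const]
  rw [h1, integral_integral_swap hprod, ← integral_neg_eq_self]
  refine integral_congr_ae (Eventually.of_forall fun ξ => ?_)
  simp only
  unfold Fm
  rw [mul_assoc, ← integral_mul_const, ← integral_const_mul]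
  refine integral_congr_ae (Eventually.of_forall fun y => ?_)
  simp only
  rw [mu_neg]
  have e : ((-2 * Real.pi * ⟪-ξ, x - y⟫ : ℝ) : ℂ) * I =
      ((2 * Real.pi * ⟪y, -ξ⟫ : ℝ) : ℂ) * I + ((2 * Real.pi * ⟪x, ξ⟫ : ℝ) : ℂ) * I := by
    rw [inner_neg_left, inner_neg_right, inner_sub_right, real_inner_comm x ξ, real_inner_comm y ξ]
    push_cast
    ring
  rw [e, Complex.exp_add]
  ring

theorem t_sx (n : ℕ) (hn : 2 ≤ n) : S_SX n := by
  intro δ hδ
  refine ⟨psi δ, psi_bump δ, fun μ hμ f hf x => ?_⟩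
  have hψ : Bump (psi δ) := psi_bump δ
  obtain ⟨C, hC, hL2⟩ := mu_L2 n hn hψ
  obtain ⟨hm, ⟨M, hM⟩, a, ha⟩ := hf
  set ν : Measure (E n) := μ.restrict (closedBall 0 a) with hν
  have hfin : IsFiniteMeasure ν := by
    refine ⟨?_⟩
    rw [hν, Measure.restrict_apply_univ]
    exact hμ 0 a
  have hFm : ∀ ξ, Fm f μ ξ = Fm f ν ξ := by
    intro ξ
    unfold Fm
    rw [hν]
    exact (setIntegral_eq_integral_of_forall_compl_eq_zero fun x hx => by
      rw [ha x hx, zero_mul]).symm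
  have hTm : ∀ q : E n → ℂ, Tm q f μ x = Tm q f ν x := by
    intro q
    unfold Tm
    rw [hν]
    exact (setIntegral_eq_integral_of_forall_compl_eq_zero fun x hx => by
      rw [ha x hx, mul_zero]).symm
  set g : E n → ℂ := fun ξ => Fm f ν (-ξ) with hg
  have hgm : Measurable g := by
    have h1 : StronglyMeasurable (Fm f ν) :=
      (ff_meas hm).stronglyMeasurable.integral_prod_right
    exact h1.measurable.comp measurable_neg
  set B : ℝ := M * ν.real univ with hB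
  have hgb : ∀ ξ, ‖g ξ‖ ≤ B := by
    intro ξ
    refine norm_integral_le_of_norm_le_const (ae_of_all _ fun t => ?_)
    rw [norm_mul, Complex.norm_exp_ofReal_mul_I, mul_one]
    exact hM t
  have hB0 : 0 ≤ B := (norm_nonneg _).trans (hgb 0)
  set e : E n → ℂ := fun ξ => cexp (((2 * Real.pi * ⟪x, ξ⟫ : ℝ) : ℂ) * I) with he
  have he1 : ∀ ξ, ‖e ξ‖ = 1 := fun ξ => Complex.norm_exp_ofReal_mul_I _
  have hec : Continuous e := by
    rw [he]
    fun_prop
  set F : ℕ → E n → ℂ := fun j ξ => (((2 : ℝ) ^ (-(δ * j)) : ℝ) : ℂ) *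
    (mu (psi δ) (2 ^ j) 1 ξ * g ξ * e ξ) with hF
  have hA : ∀ j : ℕ, (1 : ℝ) ≤ 2 ^ j := fun j => one_le_pow₀ (by norm_num)
  have hFc : ∀ j, Measurable (F j) := fun j =>
    measurable_const.mul (((mu_cont hψ _ 1).measurable.mul hgm).mul hec.measurable)
  set o : E n → ℝ := (closedBall (0 : E n) 2).indicator fun _ => 1 with ho
  have hoi : Integrable o := by
    rw [ho, integrable_indicator_iff isClosed_closedBall.measurableSet]
    exact integrableOn_const measure_closedBall_lt_top.ne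
  set V : ℝ := ∫ ξ, o ξ with hV
  have ho0 : ∀ ξ, 0 ≤ o ξ := fun ξ => indicator_nonneg (fun _ _ => zero_le_one) ξ
  have hV0 : 0 ≤ V := integral_nonneg ho0
  have hFn : ∀ j ξ, ‖F j ξ‖ ≤ ‖mu (psi δ) (2 ^ j) 1 ξ‖ * B := by
    intro j ξ
    have h1 : (2 : ℝ) ^ (-(δ * j)) ≤ 1 := Real.rpow_le_one_of_one_le_of_nonpos (by norm_num)
      (by have : 0 ≤ δ * j := by positivity
          linarith)
    have h2 : 0 ≤ (2 : ℝ) ^ (-(δ * j)) := Real.rpow_nonneg (by norm_num) _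
    rw [hF]
    simp only [norm_mul, he1, mul_one]
    rw [Complex.norm_real, Real.norm_of_nonneg h2]
    refine (mul_le_of_le_one_left (by positivity) h1).trans ?_
    exact mul_le_mul_of_nonneg_left (hgb ξ) (norm_nonneg _)
  have hmul : ∀ (j : ℕ) ξ, ‖mu (psi δ) (2 ^ j) 1 ξ‖ * B ≤
      B * (1 / 2 * (Real.sqrt (2 ^ j) * ‖mu (psi δ) (2 ^ j) 1 ξ‖ ^ 2 +
        (Real.sqrt (2 ^ j))⁻¹ * o ξ)) := by
    intro j ξ
    rw [mul_comm]
    refine mul_le_mul_of_nonneg_left ?_ hB0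
    have hs : 0 < Real.sqrt ((2 : ℝ) ^ j) := by positivity
    set s := Real.sqrt ((2 : ℝ) ^ j) with hsd
    by_cases hξ : ξ ∈ closedBall (0 : E n) 2
    · have : o ξ = 1 := by rw [ho, indicator_of_mem hξ]
      rw [this]
      set u := ‖mu (psi δ) (2 ^ j) 1 ξ‖
      have h1 : s * u ^ 2 + s⁻¹ * 1 - 2 * u = s * (u - s⁻¹) ^ 2 := by
        field_simp
        ring
      have h2 : 0 ≤ s * (u - s⁻¹) ^ 2 := by positivity
      linarith
    · rw [mem_closedBall_zero_iff, not_le] at hξ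
      rw [mu_far hψ (by positivity) one_pos ξ (by linarith), norm_zero]
      have := ho0 ξ
      positivity
  have hsq := fun j : ℕ => mu_sq (n := n) (C := C) hψ (A := 2 ^ j) (R := 1) (by positivity) one_pos
    one_le_two (by positivity) (hL2 (2 ^ j) 1 (hA j) le_rfl one_le_two)
  have hmaj : ∀ j : ℕ, Integrable fun ξ => B * (1 / 2 * (Real.sqrt (2 ^ j) *
      ‖mu (psi δ) (2 ^ j) 1 ξ‖ ^ 2 + (Real.sqrt (2 ^ j))⁻¹ * o ξ)) := fun j =>
    ((((hsq j).1.const_mul _).add (hoi.const_mul _)).const_mul _).const_mul _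
  have hFi : ∀ j, Integrable (F j) := fun j =>
    (hmaj j).mono' (hFc j).aestronglyMeasurable
      (Eventually.of_forall fun ξ => (hFn j ξ).trans (hmul j ξ))
  have hFsum : ∀ j, ∫ ξ, ‖F j ξ‖ ≤ B * (1 / 2 * (C + V)) * (2 : ℝ) ^ (-((1 / 2 : ℝ) * j)) := by
    intro j
    have hs : Real.sqrt ((2 : ℝ) ^ j) = (2 : ℝ) ^ ((1 / 2 : ℝ) * j) := by
      rw [Real.sqrt_eq_rpow, ← Real.rpow_natCast, ← Real.rpow_mul (by norm_num)]
      congr 1
      ring
    have hs0 : 0 < (2 : ℝ) ^ ((1 / 2 : ℝ) * j) := Real.rpow_pos_of_pos (by norm_num) _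
    have hs2 : (2 : ℝ) ^ j = (2 : ℝ) ^ ((1 / 2 : ℝ) * j) * (2 : ℝ) ^ ((1 / 2 : ℝ) * j) := by
      rw [← Real.rpow_natCast, ← Real.rpow_add (by norm_num)]
      congr 1
      ring
    calc ∫ ξ, ‖F j ξ‖ ≤ ∫ ξ, B * (1 / 2 * (Real.sqrt (2 ^ j) *
          ‖mu (psi δ) (2 ^ j) 1 ξ‖ ^ 2 + (Real.sqrt (2 ^ j))⁻¹ * o ξ)) :=
          integral_mono (hFi j).norm (hmaj j) fun ξ => (hFn j ξ).trans (hmul j ξ)
      _ = B * (1 / 2 * (Real.sqrt (2 ^ j) * (∫ ξ : E n, ‖mu (psi δ) (2 ^ j) 1 ξ‖ ^ 2) +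
          (Real.sqrt (2 ^ j))⁻¹ * V)) := by
          rw [integral_const_mul, integral_const_mul, integral_add ((hsq j).1.const_mul _)
            (hoi.const_mul _), integral_const_mul, integral_const_mul]
      _ ≤ B * (1 / 2 * (Real.sqrt (2 ^ j) * (C / 2 ^ j) + (Real.sqrt (2 ^ j))⁻¹ * V)) := by
          have := (hsq j).2
          gcongr
      _ = B * (1 / 2 * (C + V)) * (2 : ℝ) ^ (-((1 / 2 : ℝ) * j)) := by
          rw [hs, hs2, Real.rpow_neg (by norm_num)]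
          field_simp
  have hsm : Summable fun j => ∫ ξ, ‖F j ξ‖ :=
    Summable.of_nonneg_of_le (fun j => integral_nonneg fun ξ => norm_nonneg _) hFsum
      ((geo_half).mul_left _)
  have key := hasSum_integral_of_summable_integral_norm hFi hsm
  have e1 : (fun j : ℕ => ∫ ξ, F j ξ) = fun j : ℕ => (((2 : ℝ) ^ (-(δ * j)) : ℝ) : ℂ) *
      Tm (mu (psi δ) (2 ^ j) 1) f μ x := by
    funext j
    rw [hTm, tm_eq hψ (by positivity) ν hm hM x, ← integral_const_mul]
  have e2 : ∫ ξ, ∑' j, F j ξ = Sn δ f μ x := by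
    unfold Sn
    refine integral_congr_ae (Eventually.of_forall fun ξ => ?_)
    have h1 := ((ml_sum δ one_pos ξ).mul_right (g ξ * e ξ)).tsum_eq
    simp only at h1 ⊢
    rw [hF]
    simp only
    have h2 : (fun j : ℕ => (((2 : ℝ) ^ (-(δ * j)) : ℝ) : ℂ) * mu (psi δ) (2 ^ j) 1 ξ * (g ξ * e ξ)) =
        fun j : ℕ => (((2 : ℝ) ^ (-(δ * j)) : ℝ) : ℂ) * (mu (psi δ) (2 ^ j) 1 ξ * g ξ * e ξ) := by
      funext j
      ring
    rw [h2] at h1
    rw [h1, hFm]
    ring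
  rw [e1, e2] at key
  exact key
where
  geo_half : Summable fun j : ℕ => (2 : ℝ) ^ (-((1 / 2 : ℝ) * j)) := by
    have : (fun j : ℕ => (2 : ℝ) ^ (-((1 / 2 : ℝ) * j))) = fun j : ℕ => ((2 : ℝ) ^ (-(1 / 2 : ℝ))) ^ j := by
      funext j
      rw [← Real.rpow_natCast, ← Real.rpow_mul (by norm_num)]
      congr 1
      ring
    rw [this]
    exact summable_geometric_of_lt_one (Real.rpow_nonneg (by norm_num) _)
      (Real.rpow_lt_one_of_one_lt_of_neg (by norm_num) (by norm_num))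

end Pool.Agent.Y421.FE
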